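import Pool.Agent.H929.BW.Stm

/-!
# BW: two pieces, independence (helper177 for helper929)
-/

set_option autoImplicit false

namespace Pool.Agent.H929.BW

open Finset Pool.Agent.TH3.IR Pool.Agent.Y55.Col

/-- shearing the left slopes to `[0, 1)` -/
theorem pieces_left {ι : Type} [Fintype ι] {n : ℕ} {w : ι → ℕ} {a H : ℝ} (ha : 1 ≤ a)
    (h : GS n w a H) (L W : ℝ) (hW : a * H ≤ W) (μ : Fin n → ℝ) :
    SurS w (RegS L (L + W) μ (fun i => a - μ i)) := by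
  have h1 := h L (L + W) (fun i => μ i - ⌊μ i⌋) (fun i => a - (μ i - ⌊μ i⌋))
    (fun i => by
      have := Int.floor_le (μ i)
      linarith)
    (fun i => by
      have := Int.lt_floor_add_one (μ i)
      linarith)
    (by linarith) (fun i => by ring)
  refine h1.comap 1 (Or.inl rfl) (fun i => -⌊μ i⌋) 0 ?_
  rintro ⟨x, y⟩ ⟨m1, m2, m3⟩
  have e1 : ∑ i, (μ i - (⌊μ i⌋ : ℝ)) * (y i : ℝ) =
      ∑ i, μ i * (y i : ℝ) - ∑ i, (⌊μ i⌋ : ℝ) * (y i : ℝ) := by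
    rw [← sum_sub_distrib]
    exact sum_congr rfl fun i _ => by ring
  have e2 : ∑ i, (a - (μ i - (⌊μ i⌋ : ℝ))) * (y i : ℝ) =
      ∑ i, (a - μ i) * (y i : ℝ) + ∑ i, (⌊μ i⌋ : ℝ) * (y i : ℝ) := by
    rw [← sum_add_distrib]
    exact sum_congr rfl fun i _ => by ring
  have e3 : ((1 * (x - ∑ i, -⌊μ i⌋ * y i - 0) : ℤ) : ℝ) = x + ∑ i, (⌊μ i⌋ : ℝ) * (y i : ℝ) := by
    push_cast
    rw [one_mul, sub_zero]
    simp only [neg_mul, sum_neg_distrib, sub_neg_eq_add]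
  simp only at m1 m2 m3
  rw [e1] at m2
  rw [e2] at m3
  refine ⟨m1, ?_, ?_⟩
  · change L + ∑ i, μ i * (y i : ℝ) ≤ ((1 * (x - ∑ i, -⌊μ i⌋ * y i - 0) : ℤ) : ℝ)
    rw [e3]
    linarith
  · change ((1 * (x - ∑ i, -⌊μ i⌋ * y i - 0) : ℤ) : ℝ) ≤ L + W - ∑ i, (a - μ i) * (y i : ℝ)
    rw [e3]
    linarith

/-- shearing the right slopes to `[0, 1)` -/
theorem pieces_right {ι : Type} [Fintype ι] {n : ℕ} {w : ι → ℕ} {a H : ℝ} (ha : 1 ≤ a)
    (h : GS n w a H) (R W : ℝ) (hW : a * H ≤ W) (ν : Fin n → ℝ) :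
    SurS w (RegS (R - W) R (fun i => a - ν i) ν) := by
  have h1 := h (R - W) R (fun i => a - (ν i - ⌊ν i⌋)) (fun i => ν i - ⌊ν i⌋)
    (fun i => by
      have := Int.lt_floor_add_one (ν i)
      linarith)
    (fun i => by
      have := Int.floor_le (ν i)
      linarith)
    (by linarith) (fun i => by ring)
  refine h1.comap 1 (Or.inl rfl) (fun i => ⌊ν i⌋) 0 ?_
  rintro ⟨x, y⟩ ⟨m1, m2, m3⟩
  have e1 : ∑ i, (ν i - (⌊ν i⌋ : ℝ)) * (y i : ℝ) =
      ∑ i, ν i * (y i : ℝ) - ∑ i, (⌊ν i⌋ : ℝ) * (y i : ℝ) := by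
    rw [← sum_sub_distrib]
    exact sum_congr rfl fun i _ => by ring
  have e2 : ∑ i, (a - (ν i - (⌊ν i⌋ : ℝ))) * (y i : ℝ) =
      ∑ i, (a - ν i) * (y i : ℝ) + ∑ i, (⌊ν i⌋ : ℝ) * (y i : ℝ) := by
    rw [← sum_add_distrib]
    exact sum_congr rfl fun i _ => by ring
  have e3 : ((1 * (x - ∑ i, ⌊ν i⌋ * y i - 0) : ℤ) : ℝ) = x - ∑ i, (⌊ν i⌋ : ℝ) * (y i : ℝ) := by
    push_cast
    rw [one_mul, sub_zero]
  simp only at m1 m2 m3
  rw [e1] at m3
  rw [e2] at m2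
  refine ⟨m1, ?_, ?_⟩
  · change R - W + ∑ i, (a - ν i) * (y i : ℝ) ≤ ((1 * (x - ∑ i, ⌊ν i⌋ * y i - 0) : ℤ) : ℝ)
    rw [e3]
    linarith
  · change ((1 * (x - ∑ i, ⌊ν i⌋ * y i - 0) : ℤ) : ℝ) ≤ R - ∑ i, ν i * (y i : ℝ)
    rw [e3]
    linarith

theorem t_PIECES (hcut : S_CUTS) : S_PIECES := by
  intro ι κ _ _ n w v a b H H' ha hb hH hw hv L R μ ν hμ hν hW hs
  have hab : 0 < a + b := by linarith
  obtain ⟨H1, hH1⟩ : ∃ H1 : ℝ, H1 = (R - L) / (a + b) := ⟨_, rfl⟩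
  have hRL : R - L = (a + b) * H1 := by
    rw [hH1]
    field_simp
  have hHH : H ≤ H1 := by
    rw [hH1, le_div_iff₀ hab]
    linarith
  have hs' : ∀ i, μ i + ν i = a + b := hs
  have hA := pieces_left ha hw L (a * H1) (mul_le_mul_of_nonneg_left hHH (by linarith)) μ
  have hB := pieces_right hb hv R (b * H') le_rfl ν
  have hcomb := hcut ι κ (Fin n) w v _ _ (fun i => a - μ i) ?_ hA hB
  · refine hcomb.mono ?_
    rintro ⟨x, y⟩ (h | h)
    · obtain ⟨m1, m2, m3⟩ := h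
      simp only at m1 m2 m3
      have e1 : ∑ i, (a - μ i) * (y i : ℝ) = a * ∑ i, (y i : ℝ) - ∑ i, μ i * (y i : ℝ) := by
        rw [mul_sum, ← sum_sub_distrib]
        exact sum_congr rfl fun i _ => by ring
      have e2 : ∑ i, ν i * (y i : ℝ) = (a + b) * ∑ i, (y i : ℝ) - ∑ i, μ i * (y i : ℝ) := by
        rw [mul_sum, ← sum_sub_distrib]
        refine sum_congr rfl fun i _ => ?_
        rw [← hs' i]
        ring
      rw [e1] at m3
      have h1 : a * ∑ i, (y i : ℝ) ≤ a * H1 := by linarith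
      have h2 : ∑ i, (y i : ℝ) ≤ H1 := le_of_mul_le_mul_left h1 (by linarith)
      refine ⟨m1, m2, ?_⟩
      change (x : ℝ) ≤ R - ∑ i, ν i * (y i : ℝ)
      rw [e2]
      nlinarith
    · obtain ⟨m1, m2, m3⟩ := h
      simp only at m1 m2 m3
      have e1 : ∑ i, (b - ν i) * (y i : ℝ) = b * ∑ i, (y i : ℝ) - ∑ i, ν i * (y i : ℝ) := by
        rw [mul_sum, ← sum_sub_distrib]
        exact sum_congr rfl fun i _ => by ring
      have e2 : ∑ i, μ i * (y i : ℝ) = (a + b) * ∑ i, (y i : ℝ) - ∑ i, ν i * (y i : ℝ) := by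
        rw [mul_sum, ← sum_sub_distrib]
        refine sum_congr rfl fun i _ => ?_
        rw [← hs' i]
        ring
      rw [e1] at m2
      have h1 : b * ∑ i, (y i : ℝ) ≤ b * H' := by linarith
      have h2 : ∑ i, (y i : ℝ) ≤ H' := le_of_mul_le_mul_left h1 (by linarith)
      refine ⟨m1, ?_, m3⟩
      change L + ∑ i, μ i * (y i : ℝ) ≤ (x : ℝ)
      rw [e2]
      have h3 : a * ∑ i, (y i : ℝ) ≤ a * H' := mul_le_mul_of_nonneg_left h2 (by linarith)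
      have h4 : (a + b) * H' ≤ (a + b) * H1 := mul_le_mul_of_nonneg_left (by linarith) hab.le
      nlinarith
  · rintro ⟨x, y⟩ ⟨-, -, m3⟩ ⟨x', y'⟩ ⟨-, m2, -⟩
    simp only at m2 m3 ⊢
    have e1 : ∑ i, (b - ν i) * (y' i : ℝ) = - ∑ i, (a - μ i) * (y' i : ℝ) := by
      rw [← sum_neg_distrib]
      refine sum_congr rfl fun i _ => ?_
      have := hs' i
      have h2 : b - ν i = -(a - μ i) := by linarith
      rw [h2]
      ring
    rw [e1] at m2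
    have h5 : (a + b) * H' < (a + b) * H1 := mul_lt_mul_of_pos_left (by linarith) hab
    nlinarith

end Pool.Agent.H929.BW
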